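import Pool.Agent.H59.L.S8.W418.Lin.Cut
import Pool.Agent.H59.L.S8.W418.Lin.Space

/-!
# The stage of an arrangement of hyperplanes
-/

set_option autoImplicit false
set_option linter.unusedVariables false
set_option linter.unusedSectionVars false

universe u

open MvPolynomial

namespace Pool.Agent.W418.Lin

open Pool.Agent.W558 Pool.Agent.W973.CUT

section mono

variable {k K : Type u} [Field k] [Field K] [Algebra k K] {T I : Type} [Fintype I]
  {M : LM (⊥ : Subalgebra k K) ⊤ T I}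

/-- The function `a` is locally a monomial. -/
def Mo (M : LM (⊥ : Subalgebra k K) ⊤ T I) (a : K) (γ : I → ℤ) : Prop :=
  ∀ t, ∃ w, w ≠ 0 ∧ w ∈ M.A t ∧ w⁻¹ ∈ M.A t ∧ a = w * ∏ i, M.x t i ^ γ i

lemma Mo.one : Mo M 1 0 := fun t => ⟨1, one_ne_zero, (M.A t).one_mem, by
  rw [inv_one]; exact (M.A t).one_mem, by simp⟩

lemma Mo.mul {a b : K} {γ δ : I → ℤ} (h : Mo M a γ) (h' : Mo M b δ) : Mo M (a * b) (γ + δ) := by
  intro t
  obtain ⟨w, h0, h1, h2, h3⟩ := h t
  obtain ⟨w', h0', h1', h2', h3'⟩ := h' t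
  refine ⟨w * w', mul_ne_zero h0 h0', (M.A t).mul_mem h1 h1', ?_, ?_⟩
  · rw [mul_inv]
    exact (M.A t).mul_mem h2 h2'
  · have h4 : ∏ i, M.x t i ^ (γ + δ) i = (∏ i, M.x t i ^ γ i) * ∏ i, M.x t i ^ δ i := by
      rw [← Finset.prod_mul_distrib]
      exact Finset.prod_congr rfl fun i _ => zpow_add₀ (M.x0 t i) _ _
    rw [h4, h3, h3']
    ring

lemma Mo.inv {a : K} {γ : I → ℤ} (h : Mo M a γ) : Mo M a⁻¹ (-γ) := by
  intro t
  obtain ⟨w, h0, h1, h2, h3⟩ := h t
  refine ⟨w⁻¹, inv_ne_zero h0, h2, by rwa [inv_inv], ?_⟩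
  have h4 : ∏ i, M.x t i ^ (-γ) i = (∏ i, M.x t i ^ γ i)⁻¹ := by
    rw [← Finset.prod_inv_distrib]
    exact Finset.prod_congr rfl fun i _ => zpow_neg _ _
  rw [h4, h3, mul_inv]

lemma Mo.prod {J : Type} (s : Finset J) {f : J → K} (h : ∀ j ∈ s, ∃ γ, Mo M (f j) γ) :
    ∃ γ, Mo M (∏ j ∈ s, f j) γ := by
  classical
  induction s using Finset.induction_on with
  | empty => exact ⟨0, by rw [Finset.prod_empty]; exact Mo.one⟩
  | insert b s hb ih =>
    obtain ⟨γ, h1⟩ := ih fun j hj => h j (Finset.mem_insert_of_mem hj)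
    obtain ⟨δ, h2⟩ := h b (Finset.mem_insert_self b s)
    rw [Finset.prod_insert hb]
    exact ⟨_, h2.mul h1⟩

end mono

section compat

variable {k E K L : Type u} [Field k] [Field E] [Field K] [Field L] [Algebra k E] [Algebra k K]
  [Algebra E K] [IsScalarTower k E K] [Algebra k L] [Algebra E L] [IsScalarTower k E L]
  {ι : Type}

/-- The range of the evaluation. -/
lemma range_ev {z : ι → K} {ζ : ι → L} (hz : ∀ i, z i ≠ 0) (π : LauI k E z →ₐ[k] L)
    (hE : ∀ a h, π ⟨algebraMap E K a, h⟩ = algebraMap E L a)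
    (hj : ∀ j h, π ⟨z j, h⟩ = ζ j) : π.range = LauI k E ζ := by
  have hji : ∀ j h, π ⟨(z j)⁻¹, h⟩ = (ζ j)⁻¹ := by
    intro j h
    have h1 : π ⟨z j, z_mem z j⟩ * π ⟨(z j)⁻¹, h⟩ = 1 := by
      rw [← map_mul, ← map_one π]
      congr 1
      exact Subtype.ext (mul_inv_cancel₀ (hz j))
    rw [hj] at h1
    exact eq_inv_of_mul_eq_one_right h1
  apply le_antisymm
  · rintro _ ⟨⟨q, hq⟩, rfl⟩
    change π ⟨q, hq⟩ ∈ LauI k E ζ
    induction hq using Algebra.adjoin_induction with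
    | mem x hx =>
      rcases hx with (⟨x, rfl⟩ | ⟨j, rfl⟩) | ⟨j, rfl⟩
      · have h1 := em_mem (k := k) ζ x
        rw [← hE x (em_mem z x)] at h1
        exact h1
      · have h1 := z_mem (k := k) (E := E) ζ j
        rw [← hj j (z_mem z j)] at h1
        exact h1
      · have h1 := zi_mem (k := k) (E := E) ζ j
        rw [← hji j (zi_mem z j)] at h1
        exact h1
    | algebraMap c =>
      have : π ⟨algebraMap k K c, Subalgebra.algebraMap_mem _ c⟩ = algebraMap k L c :=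
        π.commutes c
      rw [this]
      exact Subalgebra.algebraMap_mem _ c
    | add x y hx hy h1 h2 =>
      have : π ⟨x + y, (LauI k E z).add_mem hx hy⟩ = π ⟨x, hx⟩ + π ⟨y, hy⟩ := by
        rw [← map_add]; rfl
      rw [this]
      exact Subalgebra.add_mem _ h1 h2
    | mul x y hx hy h1 h2 =>
      have : π ⟨x * y, (LauI k E z).mul_mem hx hy⟩ = π ⟨x, hx⟩ * π ⟨y, hy⟩ := by
        rw [← map_mul]; rfl
      rw [this]
      exact Subalgebra.mul_mem _ h1 h2
  · apply lauI_le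
    · exact fun x => ⟨⟨_, em_mem z x⟩, hE x _⟩
    · exact fun j => ⟨⟨_, z_mem z j⟩, hj j _⟩
    · exact fun j => ⟨⟨_, zi_mem z j⟩, hji j _⟩

/-- Compatibility of derivations with evaluations. -/
lemma der_ev {z : ι → K} {ζ : ι → L} (hz : ∀ i, z i ≠ 0) (π : LauI k E z →ₐ[k] L)
    (hE : ∀ a h, π ⟨algebraMap E K a, h⟩ = algebraMap E L a)
    (hj : ∀ j h, π ⟨z j, h⟩ = ζ j) (D : Derivation k K K) (D' : Derivation k L L)
    (hDQ : ∀ q ∈ LauI k E z, D q ∈ LauI k E z) (hD : ∀ x : E, D (algebraMap E K x) = 0)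
    (hD' : ∀ x : E, D' (algebraMap E L x) = 0) (χ : ι → k) (h1 : ∀ j, D (z j) = χ j • z j)
    (h2 : ∀ j, D' (ζ j) = χ j • ζ j) : ∀ q ∈ LauI k E z, D' (pq π q) = pq π (D q) := by
  have hzQ : ∀ j, pq π (z j) = ζ j := fun j => by rw [pq_of π (z_mem z j), hj]
  have hmul : ∀ x y, x ∈ LauI k E z → y ∈ LauI k E z → D' (pq π x) = pq π (D x) →
      D' (pq π y) = pq π (D y) → D' (pq π (x * y)) = pq π (D (x * y)) := by
    intro x y hx hy h3 h4
    rw [pq_mul π hx hy, Derivation.leibniz, Derivation.leibniz, h3, h4]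
    simp only [smul_eq_mul]
    rw [pq_add π ((LauI k E z).mul_mem hx (hDQ y hy)) ((LauI k E z).mul_mem hy (hDQ x hx)),
      pq_mul π hx (hDQ y hy), pq_mul π hy (hDQ x hx)]
  have hz' : ∀ j, D' (pq π (z j)) = pq π (D (z j)) := by
    intro j
    rw [hzQ, h1, h2, pq_of π ((LauI k E z).smul_mem (z_mem z j) _), ← hj j (z_mem z j), ← map_smul]
    rfl
  intro q hq
  induction hq using Algebra.adjoin_induction with
  | mem x hx =>
    rcases hx with (⟨x, rfl⟩ | ⟨j, rfl⟩) | ⟨j, rfl⟩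
    · rw [pq_of π (em_mem z x), hE, hD, hD', pq_zero]
    · exact hz' j
    · have h3 : pq π (z j)⁻¹ = (pq π (z j))⁻¹ := pq_inv π (hz j) (z_mem z j) (zi_mem z j)
      have h4 : D (z j)⁻¹ = -((z j)⁻¹ * (z j)⁻¹ * D (z j)) := by
        rw [Derivation.leibniz_inv]
        simp only [smul_eq_mul]
        ring
      have m1 : (z j)⁻¹ * (z j)⁻¹ * D (z j) ∈ LauI k E z :=
        (LauI k E z).mul_mem ((LauI k E z).mul_mem (zi_mem z j) (zi_mem z j))
          (hDQ _ (z_mem z j))
      have h5 : pq π (-((z j)⁻¹ * (z j)⁻¹ * D (z j))) =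
          -(pq π (z j)⁻¹ * pq π (z j)⁻¹ * pq π (D (z j))) := by
        rw [pq_of π ((LauI k E z).neg_mem m1)]
        have : (⟨-((z j)⁻¹ * (z j)⁻¹ * D (z j)), (LauI k E z).neg_mem m1⟩ : LauI k E z) =
            -⟨_, m1⟩ := rfl
        rw [this, map_neg, ← pq_of π m1,
          pq_mul π ((LauI k E z).mul_mem (zi_mem z j) (zi_mem z j)) (hDQ _ (z_mem z j)),
          pq_mul π (zi_mem z j) (zi_mem z j)]
      rw [h4, h5, h3, Derivation.leibniz_inv, hz' j]
      simp only [smul_eq_mul]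
      ring
  | algebraMap c =>
    have h3 : pq π (algebraMap k K c) = algebraMap k L c := by
      rw [pq_of π (Subalgebra.algebraMap_mem _ c)]
      exact π.commutes c
    rw [h3, D'.map_algebraMap, D.map_algebraMap, pq_zero]
  | add x y hx hy h3 h4 =>
    rw [pq_add π hx hy, map_add, map_add, h3, h4, pq_add π (hDQ x hx) (hDQ y hy)]
  | mul x y hx hy h3 h4 => exact hmul x y hx hy h3 h4

end compat

section stage

variable {k E L : Type u} [Field k] [Field E] [Field L] [Algebra k E]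
  [Algebra k L] [Algebra E L] [IsScalarTower k E L] {r : ℕ} {J ι : Type}

/-- The stage of an arrangement of hyperplanes: the forms and the functions on the base are
locally monomials. -/
theorem lin_stage_aux (hbase : S2_base.{u}) (hprinc : S2_princ.{u}) [PerfectField k]
    {K : Type u} [Field K] [Algebra k K] [Algebra E K] [IsScalarTower k E K] {z : J ⊕ ι → K}
    (hz : AlgebraicIndependent E z)
    (hlog : ∀ χ : J ⊕ ι → k, ∃ D : Derivation k K K, (∀ x : E, D (algebraMap E K x) = 0) ∧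
      ∀ i, D (z i) = χ i • z i)
    {T I G : Type} [Finite T] [Fintype I] [Fintype G] (M : LM (⊥ : Subalgebra k E) ⊤ T I) (h : G → E)
    (Γ : G → I → ℤ) (hF : Fn M h Γ)
    (hfr : ∀ t (x : E), ∃ a ∈ M.A t, ∃ b ∈ M.A t, b ≠ 0 ∧ x = a * b⁻¹) [Fintype J] [Finite ι]
    (v : J → Fin r → E) (hp : ∀ s, pl v s ≠ 0 → ∃ b, h b = pl v s) (hr : ∃ s, pl v s ≠ 0)
    (hv : ∀ j, v j ≠ 0) (x : Fin r → L) (w : ι → L)
    (hx : AlgebraicIndependent E (Sum.elim x w)) :
    Sta (Sum.elim (fun b => algebraMap E L (h b)) (Sum.elim (lf v x) w))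
      (LauI k E (Sum.elim (lf v x) w)) (DI k E (Sum.elim (lf v x) w)) := by
  classical
  have : Fintype ι := Fintype.ofFinite ι
  have hz0 : ∀ i, z i ≠ 0 := fun i => hz.ne_zero i
  have hx' : AlgebraicIndependent E x := hx.comp Sum.inl Sum.inl_injective
  have hℓ : ∀ j, lf v x j ≠ 0 := fun j => lf_ne hx' (hv j)
  have hw0 : ∀ i, w i ≠ 0 := fun i => hx.ne_zero (Sum.inr i)
  have hζ : ∀ i, Sum.elim (lf v x) w i ≠ 0 := by
    rintro (j | i)
    · exact hℓ j
    · exact hw0 i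
  obtain ⟨π, hE, hj, hq⟩ := exists_ev (k := k) (E := E) hz hζ
  obtain ⟨hgQ, hDQ, hDg, T1, I1, i1, i2, i3, M1, Γ1, B1, b1, hFn1, hLD1, hBas1⟩ :=
    base_lauI hbase M h Γ hF hfr z hz
  -- the monomials of the minors
  let S := {s : Fin r → J // pl v s ≠ 0}
  have hS : Nonempty S := by
    obtain ⟨s, hs⟩ := hr
    exact ⟨⟨s, hs⟩⟩
  let m : S → K := fun s => algebraMap E K (pl v s.1) * ∏ i, (z (Sum.inl (s.1 i)))⁻¹
  have hm0 : ∀ s, m s ≠ 0 := fun s => mul_ne_zero
    ((map_ne_zero (algebraMap E K)).2 s.2)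
    (Finset.prod_ne_zero_iff.2 fun i _ => inv_ne_zero (hz0 _))
  have hFm : ∀ s, ∃ γ, Mo M1 (m s) γ := by
    intro s
    obtain ⟨b, hb⟩ := hp s.1 s.2
    have h1 : Mo M1 (algebraMap E K (pl v s.1)) (Γ1 (Sum.inl b)) := by
      rw [← hb]
      exact fun t => hFn1 (Sum.inl b) t
    obtain ⟨γ, h2⟩ := Mo.prod (M := M1) (f := fun i => (z (Sum.inl (s.1 i)))⁻¹) Finset.univ
      (fun i _ => ⟨_, Mo.inv (fun t => hFn1 (Sum.inr (Sum.inl (s.1 i))) t)⟩)
    exact ⟨_, h1.mul h2⟩
  choose Γm hΓm using hFm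
  let g : G ⊕ (J ⊕ ι) → K := Sum.elim (fun b => algebraMap E K (h b)) z
  obtain ⟨T2, I2, j1, j2, j3, M2, Γ2, ⟨hE2, hE3⟩, hC⟩ := hprinc k K T1 I1 ((G ⊕ (J ⊕ ι)) ⊕ S) M1
    (Sum.elim g m) (Sum.elim Γ1 Γm)
  obtain ⟨B2, b2, hB2⟩ := hE3 _ _ B1 b1 hBas1
  have hFn2 := hE2.fn (by
    rintro (a | s)
    · exact hFn1 a
    · exact hΓm s)
  -- the equations
  have hwF : ∀ (D : Derivation k K K) (a c e : K), D a = 0 → D c = 0 → D e = 0 →
      D (a * (c * e⁻¹)) = 0 := by
    intro D a c e h1 h2 h3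
    rw [Derivation.leibniz, Derivation.leibniz, Derivation.leibniz_inv, h1, h2, h3]
    simp
  have hcut := cut_fam (k := k) (Q := LauI k E z) g (DI k E z) hgQ hDQ hDg m
    (fun s j => FF v z s.1 j) (fun s j => FF_mem v z s.1 j) ?_ ?_ π ?_
    (Sum.elim (fun b => algebraMap E L (h b)) (Sum.elim (lf v x) w)) ?_ M2 Γ2 hFn2 hC
    (fun D hD => hE2.ld D (hLD1 D hD)) B2 b2 hB2
  · rw [range_ev hz0 π hE hj] at hcut
    refine sta_mono hcut ?_
    rintro D' ⟨hD1, hD2⟩
    choose χ hχ using hD2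
    obtain ⟨D, h1, h2⟩ := hlog χ
    have hD : D ∈ DI k E z := ⟨h1, fun j => ⟨_, h2 j⟩⟩
    refine ⟨D, hD, ?_⟩
    have h3 := der_ev hz0 π hE hj D D' (hDQ D hD) h1 hD1 χ h2 hχ
    intro q hq
    have h4 := h3 q q.2
    rw [pq_coe, pq_of π hq] at h4
    exact h4
  · -- the equations are combinations of the monomials
    intro s j
    have h1 : FF v z s.1 j ∈ Submodule.span k (Set.range fun s' => m s' / m s) := by
      unfold FF
      refine Submodule.sub_mem _ ?_ (Submodule.sum_mem _ fun i _ => ?_)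
      · exact Submodule.subset_span ⟨s, div_self (hm0 s)⟩
      · by_cases hi : pl v (Function.update s.1 i j) = 0
        · rw [hi, zero_div, map_zero, zero_mul]
          exact Submodule.zero_mem _
        · refine Submodule.subset_span ⟨⟨Function.update s.1 i j, hi⟩, ?_⟩
          change (algebraMap E K (pl v (Function.update s.1 i j)) *
            ∏ i', (z (Sum.inl (Function.update s.1 i j i')))⁻¹) / (algebraMap E K (pl v s.1) *
            ∏ i', (z (Sum.inl (s.1 i')))⁻¹) = _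
          have h2 : ∏ i', (z (Sum.inl (Function.update s.1 i j i')))⁻¹ =
              (z (Sum.inl j))⁻¹ * ∏ i' ∈ Finset.univ.erase i, (z (Sum.inl (s.1 i')))⁻¹ := by
            rw [← Finset.mul_prod_erase Finset.univ _ (Finset.mem_univ i),
              Function.update_self]
            congr 1
            refine Finset.prod_congr rfl fun i' hi' => ?_
            rw [Function.update_of_ne (Finset.ne_of_mem_erase hi')]
          have h3 : ∏ i', (z (Sum.inl (s.1 i')))⁻¹ =
              (z (Sum.inl (s.1 i)))⁻¹ * ∏ i' ∈ Finset.univ.erase i, (z (Sum.inl (s.1 i')))⁻¹ := by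
            rw [← Finset.mul_prod_erase Finset.univ _ (Finset.mem_univ i)]
          rw [h2, h3, map_div₀]
          have h4 := hz0 (Sum.inl (s.1 i))
          have h5 := hz0 (Sum.inl j)
          have h6 : (∏ i' ∈ Finset.univ.erase i, (z (Sum.inl (s.1 i')))⁻¹) ≠ 0 :=
            Finset.prod_ne_zero_iff.2 fun i _ => inv_ne_zero (hz0 _)
          have h7 : algebraMap E K (pl v s.1) ≠ 0 := (map_ne_zero (algebraMap E K)).2 s.2
          clear h2 h3
          revert h6
          generalize (∏ i' ∈ Finset.univ.erase i, (z (Sum.inl (s.1 i')))⁻¹) = R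
          intro h6
          field_simp
    obtain ⟨c, hc⟩ := (Submodule.mem_span_range_iff_exists_fun k).1 h1
    exact ⟨c, hc.symm⟩
  · -- the derivations
    intro s j hne
    have hjs : ∀ i, s.1 i ≠ j := by
      rintro i rfl
      exact hne (FF_self hz0 s.2 i)
    obtain ⟨D, h1, h2⟩ := hlog (Pi.single (Sum.inl j) 1)
    have h2' : ∀ i, i ≠ Sum.inl j → D (z i) = 0 := by
      intro i hi
      have := h2 i
      rw [Pi.single_eq_of_ne hi, zero_smul] at this
      exact this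
    have h2j : D (z (Sum.inl j)) = z (Sum.inl j) := by
      have := h2 (Sum.inl j)
      rw [Pi.single_eq_same, one_smul] at this
      exact this
    refine ⟨D, ⟨h1, fun j => ⟨_, h2 j⟩⟩, ?_, ?_⟩
    · change D (FF v z s.1 j) = 1 - FF v z s.1 j
      unfold FF
      rw [map_sub, map_sum, D.map_one_eq_zero, zero_sub, sub_sub_cancel, ← Finset.sum_neg_distrib]
      refine Finset.sum_congr rfl fun i _ => ?_
      rw [Derivation.leibniz, Derivation.leibniz, Derivation.leibniz_inv, h1,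
        h2' _ (fun h => hjs i (Sum.inl_injective h)), h2j]
      have h5 := hz0 (Sum.inl j)
      simp only [smul_eq_mul, mul_zero, add_zero]
      field_simp
    · intro j' hj'
      change D (FF v z s.1 j') = 0
      unfold FF
      rw [map_sub, map_sum, D.map_one_eq_zero, zero_sub, neg_eq_zero]
      refine Finset.sum_eq_zero fun i _ => ?_
      exact hwF D _ _ _ (h1 _) (h2' _ (fun h => hjs i (Sum.inl_injective h)))
        (h2' _ (fun h => hj' (Sum.inl_injective h)))
  · intro s q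
    exact ker_lin hx hz hℓ π hE hj hq s.2 q
  · rintro (b | i) hb
    · exact (hE _ hb).symm
    · exact (hj i hb).symm

/-- The stage of an arrangement of hyperplanes: the forms and the functions on the base are
locally monomials. -/
theorem lin_stage_DI (hbase : S2_base.{u}) (hprinc : S2_princ.{u}) [PerfectField k] {T I G : Type}
    [Finite T] [Fintype I] [Fintype G] (M : LM (⊥ : Subalgebra k E) ⊤ T I) (h : G → E)
    (Γ : G → I → ℤ) (hF : Fn M h Γ)
    (hfr : ∀ t (x : E), ∃ a ∈ M.A t, ∃ b ∈ M.A t, b ≠ 0 ∧ x = a * b⁻¹) [Fintype J] [Finite ι]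
    (v : J → Fin r → E) (hp : ∀ s, pl v s ≠ 0 → ∃ b, h b = pl v s) (hr : ∃ s, pl v s ≠ 0)
    (hv : ∀ j, v j ≠ 0) (x : Fin r → L) (w : ι → L)
    (hx : AlgebraicIndependent E (Sum.elim x w)) :
    Sta (Sum.elim (fun b => algebraMap E L (h b)) (Sum.elim (lf v x) w))
      (LauI k E (Sum.elim (lf v x) w)) (DI k E (Sum.elim (lf v x) w)) := by
  let K := FractionRing (MvPolynomial (J ⊕ ι) E)
  let z : J ⊕ ι → K := fun i => algebraMap (MvPolynomial (J ⊕ ι) E) K (X i)
  have hz : AlgebraicIndependent E z := by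
    have h1 : Function.Injective (algebraMap (MvPolynomial (J ⊕ ι) E) K) :=
      IsFractionRing.injective _ _
    have h2 : (aeval z : MvPolynomial (J ⊕ ι) E →ₐ[E] K) =
        IsScalarTower.toAlgHom E (MvPolynomial (J ⊕ ι) E) K := by
      apply MvPolynomial.algHom_ext
      intro i
      rw [aeval_X]
      rfl
    change Function.Injective (aeval z : MvPolynomial (J ⊕ ι) E →ₐ[E] K)
    rw [h2]
    exact h1
  exact lin_stage_aux hbase hprinc hz exists_logder M h Γ hF hfr v hp hr hv x w hx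

/-- The stage of an arrangement of hyperplanes: the forms and the functions on the base are
locally monomials. -/
theorem lin_stage (hbase : S2_base.{u}) (hprinc : S2_princ.{u}) [PerfectField k] {T I G : Type}
    [Finite T] [Fintype I] [Fintype G] (M : LM (⊥ : Subalgebra k E) ⊤ T I) (h : G → E)
    (Γ : G → I → ℤ) (hF : Fn M h Γ)
    (hfr : ∀ t (x : E), ∃ a ∈ M.A t, ∃ b ∈ M.A t, b ≠ 0 ∧ x = a * b⁻¹) [Fintype J] [Finite ι]
    (v : J → Fin r → E) (hp : ∀ s, pl v s ≠ 0 → ∃ b, h b = pl v s) (hr : ∃ s, pl v s ≠ 0)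
    (hv : ∀ j, v j ≠ 0) (x : Fin r → L) (w : ι → L)
    (hx : AlgebraicIndependent E (Sum.elim x w)) :
    Sta (Sum.elim (fun b => algebraMap E L (h b)) (Sum.elim (lf v x) w))
      (LauI k E (Sum.elim (lf v x) w))
      {D : Derivation k L L | (∀ a : E, D (algebraMap E L a) = 0) ∧ (∀ j, D (lf v x j) = 0) ∧
        ∀ i, ∃ χ : k, D (w i) = χ • w i} := by
  refine sta_mono (lin_stage_DI hbase hprinc M h Γ hF hfr v hp hr hv x w hx) ?_
  rintro D ⟨h1, h2, h3⟩
  refine ⟨h1, ?_⟩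
  rintro (j | i)
  · exact ⟨0, by rw [zero_smul]; exact h2 j⟩
  · exact h3 i

end stage

end Pool.Agent.W418.Lin
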