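import Pool.Agent.H59.L.S8.W418.Lin.Model

/-!
# Restriction of a stage to a subvariety defined by transversal equations on the charts
-/

set_option autoImplicit false
set_option linter.unusedVariables false
set_option linter.unusedSectionVars false

universe u

open Polynomial

namespace Pool.Agent.W418.Lin

open Pool.Agent.W558 Pool.Agent.W973.CUT Pool.Agent.W63.R558Nz

variable {k K L : Type u} [Field k] [Field K] [Algebra k K] [Field L] [Algebra k L]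
  {Q : Subalgebra k K}

/-- Lifting of tangent vectors of the base. -/
lemma sub_fam (π : Q →ₐ[k] L) {I J : Type} [Finite J] {A B : Subalgebra k K} (hAQ : A ≤ Q)
    (hBA : B ≤ A) {x : I → K} (hx : ∀ i, x i ∈ A) {y : J → K} (hy : ∀ j, y j ∈ A)
    (hyπ : ∀ j, pq π (y j) = 0) {b : K}
    (hb : b ∈ B) (hker : ∀ a (ha : a ∈ A), pq π a = 0 → (⟨a, ha⟩ : A) ∈ idl A y hy)
    (hT : Tr A B hBA x hx y hy)
    (hsub : ∀ (κ : Type u) [Field κ] [Algebra k κ] (φ : A →ₐ[k] κ) (φ0 : B →ₐ[k] κ),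
      (∀ c (hc : c ∈ B), φ ⟨c, hBA hc⟩ = φ0 ⟨c, hc⟩) → φ0 ⟨b, hb⟩ ≠ 0 →
      ∀ D0 : TV φ0, ∃ D : TV φ, (∀ c (hc : c ∈ B), D.D ⟨c, hBA hc⟩ = D0.D ⟨c, hc⟩) ∧
        ∀ i, φ ⟨x i, hx i⟩ = 0 → D.D ⟨x i, hx i⟩ = 0)
    (A' : Subalgebra k L) (hA' : A' = im π A hAQ) (B' : Subalgebra k L)
    (hB' : B' = im π B (hBA.trans hAQ)) (x' : I → L) (hx'e : x' = fun i => pq π (x i))
    (hx' : ∀ i, x' i ∈ A') (b' : L) (hb'e : b' = pq π b) (hb' : b' ∈ B') (hBA' : B' ≤ A')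
    {κ : Type u} [Field κ] [Algebra k κ] (φ' : A' →ₐ[k] κ) (φ0' : B' →ₐ[k] κ)
    (h1 : ∀ c (hc : c ∈ B'), φ' ⟨c, hBA' hc⟩ = φ0' ⟨c, hc⟩) (h2 : φ0' ⟨b', hb'⟩ ≠ 0)
    (D0 : TV φ0') : ∃ D : TV φ', (∀ c (hc : c ∈ B'), D.D ⟨c, hBA' hc⟩ = D0.D ⟨c, hc⟩) ∧
      ∀ i, φ' ⟨x' i, hx' i⟩ = 0 → D.D ⟨x' i, hx' i⟩ = 0 := by
  subst hA' hB' hx'e hb'e
  have hBQ := hBA.trans hAQ
  have e1 : ∀ a (ha : a ∈ A), (φ'.comp (qm π A hAQ)) ⟨a, ha⟩ =
      φ' ⟨pq π a, pq_mem π hAQ ha⟩ := by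
    intro a ha
    change φ' (qm π A hAQ ⟨a, ha⟩) = _
    rw [qm_apply π hAQ ha]
  have e2 : ∀ a (ha : a ∈ B), (φ0'.comp (qm π B hBQ)) ⟨a, ha⟩ =
      φ0' ⟨pq π a, pq_mem π hBQ ha⟩ := by
    intro a ha
    change φ0' (qm π B hBQ ⟨a, ha⟩) = _
    rw [qm_apply π hBQ ha]
  obtain ⟨D, hD1, hD2⟩ := hsub κ (φ'.comp (qm π A hAQ)) (φ0'.comp (qm π B hBQ))
    (fun c hc => by rw [e1 c (hBA hc), e2 c hc]; exact h1 _ (pq_mem π hBQ hc))
    (by rw [e2 b hb]; exact h2) (D0.restr (qm π B hBQ))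
  have hφy : ∀ j, (φ'.comp (qm π A hAQ)) ⟨y j, hy j⟩ = 0 := by
    intro j
    rw [e1 _ (hy j)]
    have : (⟨pq π (y j), pq_mem π hAQ (hy j)⟩ : im π A hAQ) = 0 := Subtype.ext (hyπ j)
    rw [this, map_zero]
  obtain ⟨D', hy', hB', hx'⟩ := hT.correct _ hφy D
  obtain ⟨E, hE⟩ := desc_fam π hAQ hyπ hker φ' D' hy'
  refine ⟨E, ?_, ?_⟩
  · intro z hz
    obtain ⟨a, ha, rfl⟩ := (mem_im π).1 hz
    refine (hE a (hBA ha)).trans ?_
    rw [hB' a ha, hD1 a ha, TV.restr_D, qm_apply π hBQ ha]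
  · intro i hi
    have hi' : (φ'.comp (qm π A hAQ)) ⟨x i, hx i⟩ = 0 := by
      rw [e1 _ (hx i)]
      exact hi
    refine (hE _ (hx i)).trans ?_
    rw [hx' i hi', hD2 i hi']

/-- Restriction of a stage to a subvariety given by families of equations. -/
theorem cut_fam [PerfectField k] {G : Type} [Fintype G] (g : G → K)
    (Ds : Set (Derivation k K K)) (hgQ : ∀ a, g a ∈ Q ∧ (g a)⁻¹ ∈ Q)
    (hDQ : ∀ D ∈ Ds, ∀ q ∈ Q, D q ∈ Q) (hDg : ∀ D ∈ Ds, ∀ a, ∃ χ : k, D (g a) = χ • g a)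
    {S : Type} [Fintype S] [Nonempty S] (m : S → K)
    {J : Type} [Finite J] (F : S → J → K) (hFQ : ∀ s j, F s j ∈ Q)
    (hF : ∀ s j, ∃ c : S → k, F s j = ∑ s', c s' • (m s' / m s))
    (hFD : ∀ s j, F s j ≠ 0 → ∃ D ∈ Ds, D (F s j) = 1 - F s j ∧ ∀ j', j' ≠ j → D (F s j') = 0)
    (π : Q →ₐ[k] L) (hπ : ∀ s (q : Q), π q = 0 ↔ q ∈ idl Q (F s) (hFQ s)) (g' : G → L)
    (hg' : ∀ a (h : g a ∈ Q), g' a = π ⟨g a, h⟩) {T I : Type} [Finite T] [Fintype I]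
    [DecidableEq I] (M : LM (⊥ : Subalgebra k K) ⊤ T I) (Γ : G ⊕ S → I → ℤ)
    (hFn : Fn M (Sum.elim g m) Γ) (hC : ∀ a b, Cmp M Γ a b) (hLD : ∀ D ∈ Ds, LD M D)
    (B : T → Subalgebra k K) (b : T → K) (hB : Bas Q Ds M B b) :
    Sta g' π.range {D' | ∃ D ∈ Ds, ∀ (q : Q) (h : D q ∈ Q), D' (π q) = π ⟨D q, h⟩} := by
  classical
  have hT := nonempty_T M
  have hFm : Fn M m (Γ ∘ Sum.inr) := hFn.comp Sum.inr
  have hFg : Fn M g (Γ ∘ Sum.inl) := hFn.comp Sum.inl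
  have hg0 : ∀ a, g a ≠ 0 := hFg.ne
  have hm0 : ∀ i, m i ≠ 0 := hFm.ne
  have hAQ := hB.A
  have hs0 : ∀ t, ∃ s : S, ∀ s', Le M t ((Γ ∘ Sum.inr) s) ((Γ ∘ Sum.inr) s') := fun t =>
    exists_min M t (Γ ∘ Sum.inr) fun a b => hC _ _
  choose s0 hs0 using hs0
  let y : T → J → K := fun t j => F (s0 t) j
  have hmem : ∀ t s', m s' / m (s0 t) ∈ M.A t := fun t s' =>
    div_mem_of_le M t m _ hFm (hs0 t s')
  have hy : ∀ t j, y t j ∈ M.A t := by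
    intro t j
    obtain ⟨c, hc⟩ := hF (s0 t) j
    change F (s0 t) j ∈ _
    rw [hc]
    exact (M.A t).sum_mem fun s' _ => (M.A t).smul_mem (hmem t s') _
  have hyπ : ∀ t j, pq π (y t j) = 0 := by
    intro t j
    rw [pq_of π (hFQ (s0 t) j)]
    exact (hπ (s0 t) _).2 (Ideal.subset_span ⟨j, rfl⟩)
  have hTr : ∀ t, Tr (M.A t) (B t) (hB.BA t) (M.x t) (M.xA t) (y t) (hy t) := by
    intro t κ _ _ φ j hφ hj
    obtain ⟨D, hDs, h1, h2⟩ := hFD (s0 t) j hj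
    have hD := hLD D hDs
    refine ⟨TV.ofDer D (hD.dA t) φ, ?_, ?_, ?_, ?_⟩
    · change φ ⟨D (y t j), _⟩ ≠ 0
      have e : (⟨D (y t j), hD.dA t _ (hy t j)⟩ : M.A t) = 1 - ⟨y t j, hy t j⟩ :=
        Subtype.ext h1
      rw [e, map_sub, map_one, hφ, sub_zero]
      exact one_ne_zero
    · intro j' hj'
      change φ ⟨D (y t j'), _⟩ = 0
      have e : (⟨D (y t j'), hD.dA t _ (hy t j')⟩ : M.A t) = 0 := Subtype.ext (h2 j' hj')
      rw [e, map_zero]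
    · intro c hc
      change φ ⟨D c, _⟩ = 0
      have e : (⟨D c, hD.dA t _ (hB.BA t hc)⟩ : M.A t) = 0 := Subtype.ext (hB.DB D hDs t c hc)
      rw [e, map_zero]
    · intro l h6
      change φ ⟨D (M.x t l), _⟩ = 0
      have e : (⟨D (M.x t l), hD.dA t _ (M.xA t l)⟩ : M.A t) =
          ⟨D (M.x t l) / M.x t l, hD.dx t l⟩ * ⟨M.x t l, M.xA t l⟩ := by
        apply Subtype.ext
        change D (M.x t l) = D (M.x t l) / M.x t l * M.x t l
        rw [div_mul_cancel₀ _ (M.x0 t l)]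
      rw [e, map_mul, h6, mul_zero]
  -- denominators of elements of `Q`
  have hker : ∀ t a (ha : a ∈ M.A t), pq π a = 0 →
      (⟨a, ha⟩ : M.A t) ∈ idl (M.A t) (y t) (hy t) := by
    intro t a ha h0
    have hsm := M.sm t
    have hft := hB.ft t
    -- elements of the ideal in `Q` are in the ideal of the chart up to denominators
    have key : ∀ q ∈ idl Q (F (s0 t)) (hFQ (s0 t)), ∃ c, ∃ hc : c ∈ B t, ∃ N : ℕ, c ≠ 0 ∧
        ∃ h : c * (∏ i, M.x t i) ^ N * (q : K) ∈ M.A t,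
          (⟨_, h⟩ : M.A t) ∈ idl (M.A t) (y t) (hy t) := by
      intro q hq
      refine Submodule.span_induction (p := fun q _ => ∃ c, ∃ hc : c ∈ B t, ∃ N : ℕ, c ≠ 0 ∧
        ∃ h : c * (∏ i, M.x t i) ^ N * ((q : Q) : K) ∈ M.A t,
          (⟨_, h⟩ : M.A t) ∈ idl (M.A t) (y t) (hy t)) ?_ ?_ ?_ ?_ hq
      · rintro _ ⟨j, rfl⟩
        refine ⟨1, (B t).one_mem, 0, one_ne_zero, ?_, ?_⟩
        · rw [pow_zero, one_mul, one_mul]
          exact hy t j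
        · have e : (⟨1 * (∏ i, M.x t i) ^ 0 * F (s0 t) j, by
              rw [pow_zero, one_mul, one_mul]; exact hy t j⟩ : M.A t) = ⟨y t j, hy t j⟩ := by
            apply Subtype.ext
            change 1 * (∏ i, M.x t i) ^ 0 * F (s0 t) j = F (s0 t) j
            rw [pow_zero, one_mul, one_mul]
          refine (congrArg (· ∈ idl (M.A t) (y t) (hy t)) e).mpr ?_
          exact Ideal.subset_span ⟨j, rfl⟩
      · refine ⟨1, (B t).one_mem, 0, one_ne_zero, ?_, ?_⟩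
        · simp
        · have e : (⟨1 * (∏ i, M.x t i) ^ 0 * ((0 : Q) : K), by simp⟩ : M.A t) = 0 := by
            apply Subtype.ext
            simp
          exact (congrArg (· ∈ idl (M.A t) (y t) (hy t)) e).mpr (Ideal.zero_mem _)
      · rintro p q _ _ ⟨c, hc, N, hc0, h1, h2⟩ ⟨c', hc', N', hc0', h1', h2'⟩
        have hX : (∏ i, M.x t i) ∈ M.A t := (M.A t).prod_mem fun i _ => M.xA t i
        have e : c * c' * (∏ i, M.x t i) ^ (N + N') * ((p + q : Q) : K) =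
            c' * (∏ i, M.x t i) ^ N' * (c * (∏ i, M.x t i) ^ N * (p : K)) +
            c * (∏ i, M.x t i) ^ N * (c' * (∏ i, M.x t i) ^ N' * (q : K)) := by
          push_cast
          ring
        have m1 : c' * (∏ i, M.x t i) ^ N' ∈ M.A t :=
          (M.A t).mul_mem (hB.BA t hc') ((M.A t).pow_mem hX _)
        have m2 : c * (∏ i, M.x t i) ^ N ∈ M.A t :=
          (M.A t).mul_mem (hB.BA t hc) ((M.A t).pow_mem hX _)
        have h3 : c * c' * (∏ i, M.x t i) ^ (N + N') * ((p + q : Q) : K) ∈ M.A t := by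
          rw [e]
          exact (M.A t).add_mem ((M.A t).mul_mem m1 h1) ((M.A t).mul_mem m2 h1')
        refine ⟨c * c', (B t).mul_mem hc hc', N + N', mul_ne_zero hc0 hc0', h3, ?_⟩
        have e' : (⟨_, h3⟩ : M.A t) = ⟨_, m1⟩ * ⟨_, h1⟩ + ⟨_, m2⟩ * ⟨_, h1'⟩ := Subtype.ext e
        rw [e']
        exact Ideal.add_mem _ (Ideal.mul_mem_left _ _ h2) (Ideal.mul_mem_left _ _ h2')
      · rintro r q _ ⟨c, hc, N, hc0, h1, h2⟩
        obtain ⟨c', hc', N', hc0', h1'⟩ := hB.cof t r r.2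
        have e : c' * c * (∏ i, M.x t i) ^ (N' + N) * ((r • q : Q) : K) =
            (c' * (∏ i, M.x t i) ^ N' * (r : K)) * (c * (∏ i, M.x t i) ^ N * (q : K)) := by
          rw [smul_eq_mul]
          push_cast
          ring
        have h3 : c' * c * (∏ i, M.x t i) ^ (N' + N) * ((r • q : Q) : K) ∈ M.A t := by
          rw [e]
          exact (M.A t).mul_mem h1' h1
        refine ⟨c' * c, (B t).mul_mem hc' hc, N' + N, mul_ne_zero hc0' hc0, h3, ?_⟩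
        have e' : (⟨_, h3⟩ : M.A t) = ⟨_, h1'⟩ * ⟨_, h1⟩ := Subtype.ext e
        rw [e']
        exact Ideal.mul_mem_left _ _ h2
    rw [pq_of π (hAQ t ha)] at h0
    obtain ⟨c, hc, N, hc0, h1, h2⟩ := key _ ((hπ (s0 t) _).1 h0)
    refine mem_idl (hTr t) (M.snc t) (hB.bB t) (hB.b0 t) (hB.bx t) ?_ hc hc0 (N := N) ha ?_
    · intro κ _ _ φ φ0 h1 h2 D0
      obtain ⟨D, hD, -⟩ := hB.sub t κ φ φ0 h1 h2 D0
      exact ⟨D, hD⟩
    · have e : (⟨c, hB.BA t hc⟩ : M.A t) * (∏ i, (⟨M.x t i, M.xA t i⟩ : M.A t)) ^ N * ⟨a, ha⟩ =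
          ⟨_, h1⟩ := by
        apply Subtype.ext
        push_cast
        rfl
      rw [e]
      exact h2
  obtain ⟨M', hA', hx'⟩ := exists_model_fam π M B hB.BA hAQ hB.x y hy hyπ hker hTr
  have hgp : ∀ a, g' a = pq π (g a) := fun a => by rw [hg' a (hgQ a).1, pq_of π (hgQ a).1]
  have hD' : ∀ D ∈ Ds, ∀ D' : Derivation k L L,
      (∀ (q : Q) (h : D q ∈ Q), D' (π q) = π ⟨D q, h⟩) →
      ∀ q ∈ Q, D' (pq π q) = pq π (D q) := by
    intro D hD D' h q hq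
    rw [pq_of π hq, pq_of π (hDQ D hD q hq)]
    exact h ⟨q, hq⟩ (hDQ D hD q hq)
  have hmem : ∀ z, z ∈ π.range ↔ ∃ q ∈ Q, pq π q = z := by
    intro z
    constructor
    · rintro ⟨q, rfl⟩
      exact ⟨q, q.2, pq_coe π q⟩
    · rintro ⟨q, hq, rfl⟩
      rw [pq_of π hq]
      exact ⟨⟨q, hq⟩, rfl⟩
  have hBQ : ∀ t, B t ≤ Q := fun t => (hB.BA t).trans (hAQ t)
  refine ⟨?_, ?_, ?_, T, I, inferInstance, inferInstance, inferInstance, M',
    fun a => Γ (Sum.inl a), fun t => im π (B t) (hBQ t), fun t => pq π (b t), ?_, ?_, ?_⟩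
  · intro a
    rw [hgp a, ← pq_inv π (hg0 a) (hgQ a).1 (hgQ a).2]
    exact ⟨(hmem _).2 ⟨_, (hgQ a).1, rfl⟩, (hmem _).2 ⟨_, (hgQ a).2, rfl⟩⟩
  · rintro D' ⟨D, hD, h⟩ z hz
    obtain ⟨q, hq, rfl⟩ := (hmem z).1 hz
    rw [hD' D hD D' h q hq]
    exact (hmem _).2 ⟨_, hDQ D hD q hq, rfl⟩
  · rintro D' ⟨D, hD, h⟩ a
    obtain ⟨χ, hχ⟩ := hDg D hD a
    refine ⟨χ, ?_⟩
    rw [hgp a, hD' D hD D' h _ (hgQ a).1, hχ, pq_of π (Q.smul_mem (hgQ a).1 χ),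
      pq_of π (hgQ a).1, ← map_smul]
    rfl
  · intro a t
    obtain ⟨w, h0, h1, h2, h3⟩ := hFn (Sum.inl a) t
    rw [hA', hx']
    refine ⟨pq π w, pq_ne π h0 (hAQ t h1) (hAQ t h2), pq_mem π (hAQ t) h1, ?_, ?_⟩
    · rw [← pq_inv π h0 (hAQ t h1) (hAQ t h2)]
      exact pq_mem π (hAQ t) h2
    · have h4 : ∀ i, M.x t i ^ Γ (Sum.inl a) i ∈ Q := fun i =>
        zpow_mem_of (hAQ t (M.xA t i)) (Or.inr (hB.x t i))
      have h5 : g a = w * ∏ i, M.x t i ^ Γ (Sum.inl a) i := h3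
      rw [hgp a, h5, pq_mul π (hAQ t h1) (Q.prod_mem fun i _ => h4 i),
        pq_prod π _ _ fun i _ => h4 i]
      congr 1
      refine Finset.prod_congr rfl fun i _ => ?_
      exact pq_zpow π (M.x0 t i) (hAQ t (M.xA t i)) (hB.x t i) _
  · rintro D' ⟨D, hD, h⟩
    have h1 := hLD D hD
    constructor
    · rw [hA']
      intro t z hz
      obtain ⟨a, ha, rfl⟩ := (mem_im π).1 hz
      rw [hD' D hD D' h a (hAQ t ha)]
      exact pq_mem π (hAQ t) (h1.dA t a ha)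
    · rw [hA', hx']
      intro t i
      have hxi := M.xA t i
      change D' (pq π (M.x t i)) / pq π (M.x t i) ∈ im π (M.A t) (hAQ t)
      rw [hD' D hD D' h _ (hAQ t hxi), ← pq_div π (hAQ t (h1.dA t _ hxi)) (M.x0 t i)
        (hAQ t hxi) (hB.x t i)]
      exact pq_mem π (hAQ t) (h1.dx t i)
  · have hprodQ : ∀ t, ∏ i, M.x t i ∈ Q := fun t => Q.prod_mem fun i _ => hAQ t (M.xA t i)
    have hprodeq : ∀ t (N : ℕ), (∏ i, pq π (M.x t i)) ^ N = pq π ((∏ i, M.x t i) ^ N) := by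
      intro t N
      rw [pq_pow π (hprodQ t), pq_prod π _ _ fun i _ => hAQ t (M.xA t i)]
    refine { A := ?_, x := ?_, BA := ?_, ft := ?_, bB := ?_, b0 := ?_, DB := ?_, BQ := ?_,
             cof := ?_, bx := ?_, sub := ?_ }
    · rw [hA']
      intro t z hz
      obtain ⟨a, ha, rfl⟩ := (mem_im π).1 hz
      exact (hmem _).2 ⟨a, hAQ t ha, rfl⟩
    · rw [hx']
      intro t i
      rw [← pq_inv π (M.x0 t i) (hAQ t (M.xA t i)) (hB.x t i)]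
      exact (hmem _).2 ⟨_, hB.x t i, rfl⟩
    · rw [hA']
      intro t z hz
      obtain ⟨a, ha, rfl⟩ := (mem_im π).1 hz
      exact pq_mem π (hAQ t) (hB.BA t ha)
    · intro t
      have := hB.ft t
      exact Algebra.FiniteType.of_surjective (qm π (B t) (hBQ t)) (qm_surj π (B t) (hBQ t))
    · intro t
      exact pq_mem π (hBQ t) (hB.bB t)
    · intro t
      exact pq_ne π (hB.b0 t) (hBQ t (hB.bB t)) (hB.BQ t _ (hB.bB t) (hB.b0 t))
    · rintro D' ⟨D, hD, h⟩ t z hz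
      obtain ⟨a, ha, rfl⟩ := (mem_im π).1 hz
      rw [hD' D hD D' h a (hBQ t ha), hB.DB D hD t a ha, pq_zero]
    · intro t z hz hz0
      obtain ⟨a, ha, rfl⟩ := (mem_im π).1 hz
      have ha0 : a ≠ 0 := by
        rintro rfl
        exact hz0 (pq_zero π)
      rw [← pq_inv π ha0 (hBQ t ha) (hB.BQ t a ha ha0)]
      exact (hmem _).2 ⟨_, hB.BQ t a ha ha0, rfl⟩
    · rw [hA', hx']
      intro t z hz
      obtain ⟨q, hq, rfl⟩ := (hmem z).1 hz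
      obtain ⟨c', hc', N, hc0, hcN⟩ := hB.cof t q hq
      refine ⟨pq π c', pq_mem π (hBQ t) hc', N,
        pq_ne π hc0 (hBQ t hc') (hB.BQ t c' hc' hc0), ?_⟩
      change pq π c' * (∏ i, pq π (M.x t i)) ^ N * pq π q ∈ im π (M.A t) (hAQ t)
      rw [hprodeq, ← pq_mul π (hBQ t hc') (Q.pow_mem (hprodQ t) N),
        ← pq_mul π (Q.mul_mem (hBQ t hc') (Q.pow_mem (hprodQ t) N)) hq]
      exact pq_mem π (hAQ t) hcN
    · rw [hA', hx']
      intro t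
      obtain ⟨N, hN⟩ := hB.bx t
      refine ⟨N, ?_⟩
      change (∏ i, pq π (M.x t i)) ^ N / pq π (b t) ∈ im π (M.A t) (hAQ t)
      rw [hprodeq, ← pq_div π (Q.pow_mem (hprodQ t) N) (hB.b0 t) (hBQ t (hB.bB t))
        (hB.BQ t _ (hB.bB t) (hB.b0 t))]
      exact pq_mem π (hAQ t) hN
    · intro t κ _ _ φ' φ0' h1 h2 D0
      exact sub_fam π (hAQ t) (hB.BA t) (M.xA t) (hy t) (hyπ t) (hB.bB t) (hker t)
        (hTr t) (hB.sub t) _ (congrFun hA' t) _ rfl _ (congrFun hx' t) (M'.xA t) _ rfl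
        (pq_mem π (hBQ t) (hB.bB t)) _ φ' φ0' h1 h2 D0

end Pool.Agent.W418.Lin
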