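import Pool.Agent.H59.L.S8.W973.CUT
import Pool.Agent.H59.L.S8.W63.R558.Nz

/-!
# Families of transversal equations
-/

set_option autoImplicit false
set_option linter.unusedVariables false
set_option linter.unusedSectionVars false

universe u

open Polynomial

namespace Pool.Agent.W418.Lin

open Pool.Agent.W558 Pool.Agent.W973.CUT Pool.Agent.W63.R558Nz

section tv

variable {k A κ : Type u} [Field k] [CommRing A] [Algebra k A] [Field κ] [Algebra k κ]
    {φ : A →ₐ[k] κ}

/-- A tangent vector kills the ideal generated by elements of the kernel killed by it. -/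
lemma TV_span {J : Type*} (D : TV φ) {f : J → A} (h0 : ∀ j, φ (f j) = 0)
    (h1 : ∀ j, D.D (f j) = 0) {a : A} (ha : a ∈ Ideal.span (Set.range f)) : D.D a = 0 := by
  have h2 : φ a = 0 ∧ D.D a = 0 := by
    induction ha using Submodule.span_induction with
    | mem x hx =>
      obtain ⟨j, rfl⟩ := hx
      exact ⟨h0 j, h1 j⟩
    | zero => exact ⟨map_zero _, map_zero _⟩
    | add x y _ _ hx hy => exact ⟨by rw [map_add, hx.1, hy.1, add_zero],
        by rw [map_add, hx.2, hy.2, add_zero]⟩
    | smul c x _ hx =>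
      refine ⟨by rw [smul_eq_mul, map_mul, hx.1, mul_zero], ?_⟩
      rw [smul_eq_mul, D.leib, hx.1, hx.2, mul_zero, zero_mul, add_zero]
  exact h2.2

/-- The Jacobian criterion for families of equations. -/
theorem smooth_quot_fam [Algebra.Smooth k A] {J : Type} (y : J → A)
    (hv : ∀ (κ : Type u) [Field κ] [Algebra k κ] (φ : A →ₐ[k] κ) (j : J), φ (y j) = 0 →
      y j ≠ 0 → ∃ δ : TV φ, δ.D (y j) ≠ 0 ∧ ∀ j', j' ≠ j → δ.D (y j') = 0) (S : Finset J) :
    Algebra.Smooth k (A ⧸ Ideal.span (y '' (S : Set J))) := by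
  classical
  induction S using Finset.induction_on with
  | empty =>
    have h1 : Ideal.span (y '' ((∅ : Finset J) : Set J)) = ⊥ := by simp
    rw [h1]
    exact Algebra.Smooth.of_equiv (AlgEquiv.quotientBot k A).symm
  | insert j S hj ih =>
    by_cases h0 : y j = 0
    · have h1 : Ideal.span (y '' ((insert j S : Finset J) : Set J)) =
          Ideal.span (y '' (S : Set J)) := by
        rw [Finset.coe_insert, Set.image_insert_eq, Ideal.span_insert, h0]
        simp
      rw [h1]
      exact ih
    · let I : Ideal A := Ideal.span (y '' (S : Set J))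
      have h1 : Ideal.span (y '' ((insert j S : Finset J) : Set J)) = I ⊔ Ideal.span {y j} := by
        rw [Finset.coe_insert, Set.image_insert_eq, Ideal.span_insert, sup_comm]
      rw [h1]
      have ih' : Algebra.Smooth k (A ⧸ I) := ih
      have h2 : Algebra.Smooth k ((A ⧸ I) ⧸ Ideal.span {Ideal.Quotient.mk I (y j)}) := by
        refine smooth_quot _ ?_
        intro κ _ _ φ hφ
        let φ1 : A →ₐ[k] κ := φ.comp (Ideal.Quotient.mkₐ k I)
        obtain ⟨δ, hδ, hδ'⟩ := hv κ φ1 j hφ h0
        have hS : ∀ s : S, φ1 (y s) = 0 := by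
          intro s
          have : Ideal.Quotient.mk I (y s) = 0 :=
            Ideal.Quotient.eq_zero_iff_mem.2 (Ideal.subset_span ⟨s, s.2, rfl⟩)
          change φ (Ideal.Quotient.mk I (y s)) = 0
          rw [this, map_zero]
        have hSI' : y '' (S : Set J) = Set.range fun s : S => y s := by
          ext z
          constructor
          · rintro ⟨s, hs, rfl⟩
            exact ⟨⟨s, hs⟩, rfl⟩
          · rintro ⟨s, rfl⟩
            exact ⟨s, s.2, rfl⟩
        have hSI : I = Ideal.span (Set.range fun s : S => y s) := by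
          rw [← hSI']
        obtain ⟨E, hE⟩ := TV.desc (Ideal.Quotient.mkₐ k I) (Ideal.Quotient.mkₐ_surjective k I) φ
          (fun a => rfl) δ (by
            intro a ha
            have ha' : a ∈ I := Ideal.Quotient.eq_zero_iff_mem.1 ha
            rw [hSI] at ha'
            refine TV_span δ hS ?_ ha'
            intro s
            refine hδ' s ?_
            rintro rfl
            exact hj s.2)
        refine ⟨E, ?_⟩
        have h3 : E.D (Ideal.Quotient.mk I (y j)) = δ.D (y j) := hE (y j)
        rw [h3]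
        exact hδ
      have h3 : Ideal.span {Ideal.Quotient.mk I (y j)} =
          (Ideal.span {y j}).map (Ideal.Quotient.mkₐ k I) := by
        rw [Ideal.map_span, Set.image_singleton]
        rfl
      rw [h3] at h2
      exact Algebra.Smooth.of_equiv (DoubleQuot.quotQuotEquivQuotSupₐ k I (Ideal.span {y j}))

/-- Correction of tangent vectors. -/
lemma correct {B : Set A} {X : Set A} {J : Type} [Finite J] (y : J → A)
    (hv : ∀ j, y j ≠ 0 → ∃ δ : TV φ, δ.D (y j) ≠ 0 ∧ (∀ j', j' ≠ j → δ.D (y j') = 0) ∧
      (∀ c ∈ B, δ.D c = 0) ∧ ∀ x ∈ X, φ x = 0 → δ.D x = 0) (D : TV φ) :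
    ∃ D' : TV φ, (∀ j, D'.D (y j) = 0) ∧ (∀ c ∈ B, D'.D c = D.D c) ∧
      ∀ x ∈ X, φ x = 0 → D'.D x = D.D x := by
  classical
  have : Fintype J := Fintype.ofFinite J
  have key : ∀ S : Finset J, ∃ D' : TV φ, (∀ j ∈ S, D'.D (y j) = 0) ∧
      (∀ c ∈ B, D'.D c = D.D c) ∧ ∀ x ∈ X, φ x = 0 → D'.D x = D.D x := by
    intro S
    induction S using Finset.induction_on with
    | empty => exact ⟨D, by simp, fun _ _ => rfl, fun _ _ _ => rfl⟩
    | insert j S hj ih =>
      obtain ⟨D', h1, h2, h3⟩ := ih
      by_cases h0 : y j = 0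
      · refine ⟨D', ?_, h2, h3⟩
        intro i hi
        rcases Finset.mem_insert.1 hi with rfl | hi
        · rw [h0, map_zero]
        · exact h1 i hi
      · obtain ⟨δ, hδ, hδ', hδB, hδX⟩ := hv j h0
        refine ⟨TV.comb 1 (-(D'.D (y j) * (δ.D (y j))⁻¹)) D' δ, ?_, ?_, ?_⟩
        · intro i hi
          rw [TV.comb_D]
          by_cases hij : i = j
          · subst hij
            field_simp
            ring
          · rw [hδ' i hij, h1 i ((Finset.mem_insert.1 hi).resolve_left hij)]
            ring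
        · intro c hc
          rw [TV.comb_D, hδB c hc, h2 c hc]
          ring
        · intro x hx hφ
          rw [TV.comb_D, hδX x hx hφ, h3 x hx hφ]
          ring
  obtain ⟨D', h1, h2, h3⟩ := key Finset.univ
  exact ⟨D', fun j => h1 j (Finset.mem_univ j), h2, h3⟩

end tv

section place

variable {k K L : Type u} [Field k] [Field K] [Algebra k K] [Field L] [Algebra k L]
  {Q : Subalgebra k K} (π : Q →ₐ[k] L)

/-- The local ring of a valuation ring of the residue field. -/
def pullS (V : ValuationSubring L) : Subring K where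
  carrier := {x | ∃ a b : Q, π b ≠ 0 ∧ x * b = a ∧ π a / π b ∈ V}
  mul_mem' := by
    rintro x y ⟨a, b, hb, h1, h2⟩ ⟨a', b', hb', h1', h2'⟩
    refine ⟨a * a', b * b', ?_, ?_, ?_⟩
    · rw [map_mul]; exact mul_ne_zero hb hb'
    · push_cast
      rw [← h1, ← h1']; ring
    · rw [map_mul, map_mul, mul_div_mul_comm]
      exact V.mul_mem _ _ h2 h2'
  one_mem' := ⟨1, 1, by rw [map_one]; exact one_ne_zero, by simp, by
    rw [map_one, div_one]; exact V.one_mem⟩
  add_mem' := by
    rintro x y ⟨a, b, hb, h1, h2⟩ ⟨a', b', hb', h1', h2'⟩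
    refine ⟨a * b' + a' * b, b * b', ?_, ?_, ?_⟩
    · rw [map_mul]; exact mul_ne_zero hb hb'
    · push_cast
      rw [← h1, ← h1']; ring
    · have : π (a * b' + a' * b) / π (b * b') = π a / π b + π a' / π b' := by
        rw [map_add, map_mul, map_mul, map_mul]
        field_simp
      rw [this]
      exact V.add_mem _ _ h2 h2'
  zero_mem' := ⟨0, 1, by rw [map_one]; exact one_ne_zero, by simp, by
    rw [map_zero, zero_div]; exact V.zero_mem⟩
  neg_mem' := by
    rintro x ⟨a, b, hb, h1, h2⟩
    refine ⟨-a, b, hb, ?_, ?_⟩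
    · push_cast
      rw [← h1]; ring
    · rw [map_neg, neg_div]
      exact V.neg_mem _ h2

/-- The value is well defined. -/
lemma pull_eq {x : K} {a b a' b' : Q} (hb : π b ≠ 0) (hb' : π b' ≠ 0) (h1 : x * b = a)
    (h2 : x * b' = a') : π a / π b = π a' / π b' := by
  rw [div_eq_div_iff hb hb', ← map_mul, ← map_mul]
  congr 1
  apply Subtype.ext
  change (a : K) * b' = a' * b
  rw [← h1, ← h2]
  ring

/-- Lifting of valuation rings: if `V` does not contain the image of a subalgebra of `Q` then a
valuation ring of `K` above `V` does not contain the subalgebra. -/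
theorem exists_above (V : ValuationSubring L) : ∃ V0 : ValuationSubring K,
    (∀ q : Q, π q ∈ V → (q : K) ∈ V0) ∧ ∀ q : Q, (q : K) ∈ V0 → π q ∈ V := by
  let I : Ideal (pullS π V) :=
    { carrier := {x | ∃ a b : Q, π b ≠ 0 ∧ (x : K) * b = a ∧ π a / π b ∈ V.nonunits}
      add_mem' := by
        rintro x y ⟨a, b, hb, h1, h2⟩ ⟨a', b', hb', h1', h2'⟩
        refine ⟨a * b' + a' * b, b * b', ?_, ?_, ?_⟩
        · rw [map_mul]; exact mul_ne_zero hb hb'
        · push_cast
          rw [← h1, ← h1']; ring
        · have : π (a * b' + a' * b) / π (b * b') = π a / π b + π a' / π b' := by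
            rw [map_add, map_mul, map_mul, map_mul]
            field_simp
          rw [this]
          rw [ValuationSubring.mem_nonunits_iff] at h2 h2' ⊢
          exact lt_of_le_of_lt (V.valuation.map_add _ _) (max_lt h2 h2')
      zero_mem' := ⟨0, 1, by rw [map_one]; exact one_ne_zero, by simp, by
        rw [map_zero, zero_div, ValuationSubring.mem_nonunits_iff, map_zero]
        exact zero_lt_one⟩
      smul_mem' := by
        rintro ⟨c, a', b', hb', h1', h2'⟩ x ⟨a, b, hb, h1, h2⟩
        refine ⟨a' * a, b' * b, ?_, ?_, ?_⟩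
        · rw [map_mul]; exact mul_ne_zero hb' hb
        · change c * x * ((b' * b : Q) : K) = _
          push_cast
          rw [← h1, ← h1']; ring
        · rw [map_mul, map_mul, mul_div_mul_comm]
          rw [ValuationSubring.mem_nonunits_iff] at h2 ⊢
          rw [map_mul]
          exact mul_lt_one_of_nonneg_of_lt_one_right ((V.valuation_le_one_iff _).2 h2')
            zero_le h2 }
  have hI : I ≠ ⊤ := by
    intro h
    rw [Ideal.eq_top_iff_one] at h
    obtain ⟨a, b, hb, h1, h2⟩ := h
    have h3 : π a / π b = 1 := by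
      have h4 : (b : Q) = a := Subtype.ext (by rw [← h1]; simp)
      rw [← h4, div_self hb]
    rw [h3, ValuationSubring.mem_nonunits_iff, map_one] at h2
    exact lt_irrefl _ h2
  obtain ⟨V0, h1, h2⟩ := Ideal.image_subset_nonunits_valuationSubring I hI
  refine ⟨V0, ?_, ?_⟩
  · intro q hq
    apply h1
    exact ⟨q, 1, by rw [map_one]; exact one_ne_zero, by simp, by rwa [map_one, div_one]⟩
  · intro q hq
    by_contra hcon
    have hq0 : π q ≠ 0 := fun h => hcon (by rw [h]; exact V.zero_mem)
    have hqK : (q : K) ≠ 0 := by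
      intro h
      apply hq0
      have : q = 0 := Subtype.ext h
      rw [this, map_zero]
    have h3 : (π q)⁻¹ ∈ V.nonunits := by
      rw [ValuationSubring.mem_nonunits_iff, map_inv₀]
      rw [← V.valuation_le_one_iff, not_le] at hcon
      exact inv_lt_one_of_one_lt₀ hcon
    have h4 : (q : K)⁻¹ ∈ pullS π V := by
      refine ⟨1, q, hq0, ?_, ?_⟩
      · rw [inv_mul_cancel₀ hqK]; rfl
      · rw [map_one, one_div]
        exact V.nonunits_le h3
    have h5 : (⟨(q : K)⁻¹, h4⟩ : pullS π V) ∈ I := by
      refine ⟨1, q, hq0, ?_, ?_⟩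
      · change (q : K)⁻¹ * q = _
        rw [inv_mul_cancel₀ hqK]; rfl
      · rw [map_one, one_div]
        exact h3
    have h6 : (q : K)⁻¹ ∈ V0.nonunits := h2 ⟨_, h5, rfl⟩
    rw [ValuationSubring.mem_nonunits_iff, map_inv₀] at h6
    rw [← V0.valuation_le_one_iff] at hq
    have h7 : V0.valuation (q : K) ≠ 0 := (V0.valuation.ne_zero_iff).2 hqK
    have h8 : (1 : V0.ValueGroup) ≤ (V0.valuation (q : K))⁻¹ := by
      exact (one_le_inv₀ (zero_lt_iff.2 h7)).2 hq
    exact absurd h6 (not_lt.2 h8)

end place

end Pool.Agent.W418.Lin
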