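import Pool.Agent.H59.L.S8.W418.Lin.Fam

/-!
# Restriction of a model to a subvariety defined by transversal equations on the charts
-/

set_option autoImplicit false
set_option linter.unusedVariables false
set_option linter.unusedSectionVars false

universe u

open Polynomial

namespace Pool.Agent.W418.Lin

open Pool.Agent.W558 Pool.Agent.W973.CUT Pool.Agent.W63.R558Nz

section desc

variable {k K L : Type u} [Field k] [Field K] [Algebra k K] [Field L] [Algebra k L]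
  {Q : Subalgebra k K} (π : Q →ₐ[k] L)

/-- The equations `y j` of a subvariety on the chart `A` are transversal to each other, to the
fibres over the base `B` and to the boundary. -/
def Tr {I J : Type} (A B : Subalgebra k K) (hBA : B ≤ A) (x : I → K) (hx : ∀ i, x i ∈ A)
    (y : J → K) (hy : ∀ j, y j ∈ A) : Prop :=
  ∀ (κ : Type u) [Field κ] [Algebra k κ] (φ : A →ₐ[k] κ) (j : J), φ ⟨y j, hy j⟩ = 0 →
    y j ≠ 0 → ∃ δ : TV φ, δ.D ⟨y j, hy j⟩ ≠ 0 ∧ (∀ j', j' ≠ j → δ.D ⟨y j', hy j'⟩ = 0) ∧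
      (∀ c (hc : c ∈ B), δ.D ⟨c, hBA hc⟩ = 0) ∧
      ∀ i, φ ⟨x i, hx i⟩ = 0 → δ.D ⟨x i, hx i⟩ = 0

/-- The ideal of the equations. -/
def idl {J : Type} (A : Subalgebra k K) (y : J → K) (hy : ∀ j, y j ∈ A) : Ideal A :=
  Ideal.span (Set.range fun j => (⟨y j, hy j⟩ : A))

/-- Correction of tangent vectors. -/
lemma Tr.correct {I J : Type} [Finite J] {A B : Subalgebra k K} {hBA : B ≤ A} {x : I → K}
    {hx : ∀ i, x i ∈ A} {y : J → K} {hy : ∀ j, y j ∈ A} (h : Tr A B hBA x hx y hy)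
    {κ : Type u} [Field κ] [Algebra k κ] (φ : A →ₐ[k] κ) (hφ : ∀ j, φ ⟨y j, hy j⟩ = 0)
    (D : TV φ) : ∃ D' : TV φ, (∀ j, D'.D ⟨y j, hy j⟩ = 0) ∧
      (∀ c (hc : c ∈ B), D'.D ⟨c, hBA hc⟩ = D.D ⟨c, hBA hc⟩) ∧
      ∀ i, φ ⟨x i, hx i⟩ = 0 → D'.D ⟨x i, hx i⟩ = D.D ⟨x i, hx i⟩ := by
  obtain ⟨D', h1, h2, h3⟩ := Lin.correct (φ := φ) (B := {a : A | (a : K) ∈ B})
    (X := Set.range fun i => (⟨x i, hx i⟩ : A)) (fun j => (⟨y j, hy j⟩ : A)) (by
      intro j hj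
      obtain ⟨δ, h1, h2, h3, h4⟩ := h κ φ j (hφ j) (fun h0 => hj (Subtype.ext h0))
      refine ⟨δ, h1, h2, fun c hc => h3 c hc, ?_⟩
      rintro _ ⟨i, rfl⟩ hi
      exact h4 i hi) D
  exact ⟨D', h1, fun c hc => h2 ⟨c, hBA hc⟩ hc, fun i hi => h3 _ ⟨i, rfl⟩ hi⟩

/-- Descent of tangent vectors. -/
lemma desc_fam {J : Type} {A : Subalgebra k K} (h : A ≤ Q) {y : J → K} {hy : ∀ j, y j ∈ A}
    (hyπ : ∀ j, pq π (y j) = 0)
    (hker : ∀ a (ha : a ∈ A), pq π a = 0 → (⟨a, ha⟩ : A) ∈ idl A y hy) {κ : Type u} [Field κ]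
    [Algebra k κ] (φ' : im π A h →ₐ[k] κ) (D : TV (φ'.comp (qm π A h)))
    (hD : ∀ j, D.D ⟨y j, hy j⟩ = 0) :
    ∃ E : TV φ', ∀ a (ha : a ∈ A), E.D ⟨pq π a, pq_mem π h ha⟩ = D.D ⟨a, ha⟩ := by
  obtain ⟨E, hE⟩ := TV.desc (qm π A h) (qm_surj π A h) φ' (fun a => rfl) D (by
    rintro ⟨a, ha⟩ h0
    have h1 : pq π a = 0 := by
      rw [qm_apply π h ha] at h0
      exact congrArg Subtype.val h0
    refine TV_span D ?_ hD (hker a ha h1)
    intro j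
    change φ' (qm π A h ⟨y j, hy j⟩) = 0
    rw [qm_apply π h (hy j)]
    have : (⟨pq π (y j), pq_mem π h (hy j)⟩ : im π A h) = 0 := Subtype.ext (hyπ j)
    rw [this, map_zero])
  refine ⟨E, fun a ha => ?_⟩
  rw [← qm_apply π h ha]
  exact hE ⟨a, ha⟩

lemma smooth_idl {I J : Type} [Finite J] {A B : Subalgebra k K} {hBA : B ≤ A} {x : I → K}
    {hx : ∀ i, x i ∈ A} {y : J → K} {hy : ∀ j, y j ∈ A} (h : Tr A B hBA x hx y hy)
    [Algebra.Smooth k A] : Algebra.Smooth k (A ⧸ idl A y hy) := by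
  have : Fintype J := Fintype.ofFinite J
  have h1 := smooth_quot_fam (k := k) (fun j => (⟨y j, hy j⟩ : A)) (by
    intro κ _ _ φ j hj hj0
    obtain ⟨δ, h1, h2, -, -⟩ := h κ φ j hj (fun h0 => hj0 (Subtype.ext h0))
    exact ⟨δ, h1, h2⟩) Finset.univ
  have h2 : Ideal.span ((fun j => (⟨y j, hy j⟩ : A)) '' ((Finset.univ : Finset J) : Set J)) =
      idl A y hy := by
    rw [Finset.coe_univ, Set.image_univ]
    rfl
  rw [h2] at h1
  exact h1

/-- The image of a chart is smooth. -/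
lemma smooth_im_fam {I J : Type} [Finite J] {A B : Subalgebra k K} (hAQ : A ≤ Q) {hBA : B ≤ A}
    {x : I → K} {hx : ∀ i, x i ∈ A} {y : J → K} {hy : ∀ j, y j ∈ A}
    (h : Tr A B hBA x hx y hy) [Algebra.Smooth k A] (hyπ : ∀ j, pq π (y j) = 0)
    (hker : ∀ a (ha : a ∈ A), pq π a = 0 → (⟨a, ha⟩ : A) ∈ idl A y hy) :
    Algebra.Smooth k (im π A hAQ) := by
  have h1 := smooth_idl h
  have h2 : RingHom.ker (qm π A hAQ) = idl A y hy := by
    apply le_antisymm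
    · rintro ⟨a, ha⟩ h0
      rw [RingHom.mem_ker, qm_apply π hAQ ha] at h0
      exact hker a ha (congrArg Subtype.val h0)
    · unfold idl
      rw [Ideal.span_le]
      rintro _ ⟨j, rfl⟩
      change qm π A hAQ _ = 0
      rw [qm_apply π hAQ (hy j)]
      exact Subtype.ext (hyπ j)
  have e1 : (A ⧸ RingHom.ker (qm π A hAQ)) ≃ₐ[k] im π A hAQ :=
    Ideal.quotientKerAlgEquivOfSurjective (qm_surj π A hAQ)
  rw [h2] at e1
  exact Algebra.Smooth.of_equiv e1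

/-- The kernel on a chart: elements which are in the ideal of the equations after multiplication
with elements of the base and local equations of the boundary are in the ideal. -/
theorem mem_idl [PerfectField k] {I J : Type} [Fintype I] [Finite J] {A B : Subalgebra k K}
    {hBA : B ≤ A} {x : I → K} {hx : ∀ i, x i ∈ A} {y : J → K} {hy : ∀ j, y j ∈ A}
    (h : Tr A B hBA x hx y hy) [Algebra.Smooth k A] [Algebra.FiniteType k B]
    (hS : SNC A x) {b : K} (hb : b ∈ B) (hb0 : b ≠ 0) (hbx : ∃ N : ℕ, (∏ i, x i) ^ N / b ∈ A)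
    (hsub : ∀ (κ : Type u) [Field κ] [Algebra k κ] (φ : A →ₐ[k] κ) (φ0 : B →ₐ[k] κ),
      (∀ c (hc : c ∈ B), φ ⟨c, hBA hc⟩ = φ0 ⟨c, hc⟩) → φ0 ⟨b, hb⟩ ≠ 0 →
      ∀ D0 : TV φ0, ∃ D : TV φ, (∀ c (hc : c ∈ B), D.D ⟨c, hBA hc⟩ = D0.D ⟨c, hc⟩))
    {c : K} (hc : c ∈ B) (hc0 : c ≠ 0) {N : ℕ} {a : K} (ha : a ∈ A)
    (hca : (⟨c, hBA hc⟩ : A) * (∏ i, (⟨x i, hx i⟩ : A)) ^ N * ⟨a, ha⟩ ∈ idl A y hy) :
    (⟨a, ha⟩ : A) ∈ idl A y hy := by
  have hsmq := smooth_idl h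
  have hred := isReduced_of_smooth k (A ⧸ idl A y hy)
  have hrad : (idl A y hy).IsRadical := (Ideal.isRadical_iff_quotient_reduced _).2 hred
  by_contra ha'n
  obtain ⟨q, hq, haq⟩ : ∃ q ∈ (idl A y hy).minimalPrimes, (⟨a, ha⟩ : A) ∉ q := by
    by_contra hcon
    push Not at hcon
    apply ha'n
    have h1 : (⟨a, ha⟩ : A) ∈ sInf (idl A y hy).minimalPrimes := by
      rw [Ideal.mem_sInf]
      intro q hq
      exact hcon q hq
    rw [Ideal.sInf_minimalPrimes, hrad.radical] at h1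
    exact h1
  have hqp : q.IsPrime := hq.1.1
  have hIq : idl A y hy ≤ q := hq.1.2
  have hyq : ∀ j, (⟨y j, hy j⟩ : A) ∈ q := fun j => hIq (Ideal.subset_span ⟨j, rfl⟩)
  obtain ⟨κ, iκ, iκ', φ, hφ0⟩ := exists_pt (k := k) q
  have hφy : ∀ j, φ ⟨y j, hy j⟩ = 0 := fun j => (hφ0 _).2 (hyq j)
  -- tangent vectors killing the equations kill the prime ideal
  have key : ∀ (D : TV φ), (∀ j, D.D ⟨y j, hy j⟩ = 0) → ∀ z ∈ q, D.D z = 0 := by
    intro D hD z hz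
    obtain ⟨s, hs, hsz⟩ := exists_mul_mem_of_minimal hrad hq hz
    have h1 := TV_span D hφy hD hsz
    rw [D.leib, (hφ0 z).2 hz, zero_mul, add_zero] at h1
    exact (mul_eq_zero.1 h1).resolve_left fun h2 => hs ((hφ0 s).1 h2)
  have hxq : ∀ i, (⟨x i, hx i⟩ : A) ∉ q := by
    intro i hxi
    obtain ⟨D, hD1, hD2⟩ := hS κ φ i (hx i) ((hφ0 _).2 hxi)
    obtain ⟨D', h1, -, h3⟩ := h.correct φ hφy D
    have h4 := key D' h1 _ hxi
    rw [h3 i ((hφ0 _).2 hxi), hD1] at h4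
    exact one_ne_zero h4
  have hbq : (⟨b, hBA hb⟩ : A) ∉ q := by
    intro hbq
    obtain ⟨N, hN⟩ := hbx
    have h1 : (∏ i, (⟨x i, hx i⟩ : A)) ^ N = (⟨b, hBA hb⟩ : A) * ⟨_, hN⟩ := by
      apply Subtype.ext
      push_cast
      rw [mul_div_cancel₀ _ hb0]
    have h2 : (∏ i, (⟨x i, hx i⟩ : A)) ^ N ∈ q := by
      rw [h1]
      exact q.mul_mem_right _ hbq
    have h3 := hqp.mem_of_pow_mem N h2
    obtain ⟨i, -, hi⟩ := (Ideal.IsPrime.prod_mem_iff (s := Finset.univ)).1 h3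
    exact hxq i hi
  have hcq : (⟨c, hBA hc⟩ : A) ∈ q := by
    rcases hqp.mem_or_mem (hIq hca) with h1 | h1
    · rcases hqp.mem_or_mem h1 with h2 | h2
      · exact h2
      · exfalso
        have h3 := hqp.mem_of_pow_mem N h2
        obtain ⟨i, -, hi⟩ := (Ideal.IsPrime.prod_mem_iff (s := Finset.univ)).1 h3
        exact hxq i hi
    · exact absurd h1 haq
  let φ0 : B →ₐ[k] κ := φ.comp (Subalgebra.inclusion hBA)
  have hφφ0 : ∀ e (he : e ∈ B), φ ⟨e, hBA he⟩ = φ0 ⟨e, he⟩ := fun e he => rfl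
  obtain ⟨f, hf, D0, hD0⟩ := exists_trans φ0 (c := (⟨c, hc⟩ : B))
    (by rw [← hφφ0]; exact (hφ0 _).2 hcq) (fun h => hc0 (congrArg Subtype.val h))
  obtain ⟨D, hD⟩ := hsub κ φ φ0 hφφ0 (by
    rw [← hφφ0]
    exact fun h => hbq ((hφ0 _).1 h)) D0
  obtain ⟨D', h1, h2, -⟩ := h.correct φ hφy D
  have h4 := key D' h1 ⟨(f : K), hBA f.2⟩ ((hφ0 _).1 hf)
  rw [h2 f f.2, hD f f.2] at h4
  exact hD0 h4

end desc

section model

variable {k K L : Type u} [Field k] [Field K] [Algebra k K] [Field L] [Algebra k L]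
  {Q : Subalgebra k K} (π : Q →ₐ[k] L) {T I J : Type} [Fintype I] [Finite J]

/-- The restriction of a model to a subvariety. -/
theorem exists_model_fam (M : LM (⊥ : Subalgebra k K) ⊤ T I) (B : T → Subalgebra k K)
    (hBA : ∀ t, B t ≤ M.A t)
    (hAQ : ∀ t, M.A t ≤ Q) (hxQ' : ∀ t i, (M.x t i)⁻¹ ∈ Q) (y : T → J → K)
    (hy : ∀ t j, y t j ∈ M.A t) (hyπ : ∀ t j, pq π (y t j) = 0)
    (hker : ∀ t a (ha : a ∈ M.A t), pq π a = 0 → (⟨a, ha⟩ : M.A t) ∈ idl (M.A t) (y t) (hy t))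
    (hT : ∀ t, Tr (M.A t) (B t) (hBA t) (M.x t) (M.xA t) (y t) (hy t)) :
    ∃ M' : LM (⊥ : Subalgebra k L) ⊤ T I, (M'.A = fun t => im π (M.A t) (hAQ t)) ∧
      M'.x = fun t i => pq π (M.x t i) := by
  obtain ⟨t0⟩ := nonempty_T M
  have hHQ : ∀ t, M.H t / M.H t0 ∈ Q := fun t => hAQ t0 (M.rt t0 t)
  have hHQ' : ∀ t, (M.H t / M.H t0)⁻¹ ∈ Q := fun t => by
    rw [inv_div]; exact hAQ t (M.rt t t0)
  have hH0 : ∀ t, M.H t / M.H t0 ≠ 0 := fun t => div_ne_zero (M.H0 t) (M.H0 t0)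
  have hHdiv : ∀ t t', pq π (M.H t' / M.H t0) / pq π (M.H t / M.H t0) =
      pq π (M.H t' / M.H t) := by
    intro t t'
    rw [← pq_div π (hHQ t') (hH0 t) (hHQ t) (hHQ' t),
      div_div_div_cancel_right₀ (M.H0 t0)]
  have hxQ : ∀ t i, M.x t i ∈ Q := fun t i => hAQ t (M.xA t i)
  have hφy : ∀ t (κ : Type u) [Field κ] [Algebra k κ] (φ' : im π (M.A t) (hAQ t) →ₐ[k] κ) (j : J),
      (φ'.comp (qm π (M.A t) (hAQ t))) ⟨y t j, hy t j⟩ = 0 := by
    intro t κ _ _ φ' j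
    change φ' (qm π (M.A t) (hAQ t) ⟨y t j, hy t j⟩) = 0
    rw [qm_apply π (hAQ t) (hy t j)]
    have : (⟨pq π (y t j), pq_mem π (hAQ t) (hy t j)⟩ : im π (M.A t) (hAQ t)) = 0 :=
      Subtype.ext (hyπ t j)
    rw [this, map_zero]
  refine ⟨{ A := fun t => im π (M.A t) (hAQ t)
            H := fun t => pq π (M.H t / M.H t0)
            x := fun t i => pq π (M.x t i)
            sm := ?_
            base := fun t => bot_le
            H0 := fun t => pq_ne π (hH0 t) (hHQ t) (hHQ' t)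
            HR := fun t => trivial
            rt := ?_
            gl := ?_
            dn := fun t f hf => ⟨0, trivial⟩
            cv := ?_
            xA := fun t i => pq_mem π _ (M.xA t i)
            x0 := fun t i => pq_ne π (M.x0 t i) (hxQ t i) (hxQ' t i)
            gi := ?_
            snc := ?_ }, rfl, rfl⟩
  · intro t
    have := M.sm t
    exact smooth_im_fam π (hAQ t) (hT t) (hyπ t) (hker t)
  · intro t t'
    rw [hHdiv]
    exact pq_mem π (hAQ t) (M.rt t t')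
  · intro t t' f hf
    obtain ⟨a, ha, rfl⟩ := (mem_im π).1 hf
    obtain ⟨n, hn⟩ := M.gl t t' a ha
    refine ⟨n, ?_⟩
    rw [hHdiv, ← pq_pow π (hAQ _ (M.rt t t')),
      ← pq_mul π (Q.pow_mem (hAQ _ (M.rt t t')) n) (hAQ t' ha)]
    exact pq_mem π (hAQ t) hn
  · intro V hV
    obtain ⟨V0, h1, h2⟩ := exists_above π V
    obtain ⟨t, ht⟩ := M.cv V0 (by
      intro a ha
      obtain ⟨r, rfl⟩ := Algebra.mem_bot.1 ha
      refine h1 (algebraMap k Q r) ?_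
      rw [AlgHom.commutes]
      exact hV _ (Subalgebra.algebraMap_mem _ r))
    refine ⟨t, ?_⟩
    intro f hf
    obtain ⟨a, ha, rfl⟩ := (mem_im π).1 hf
    rw [pq_of π (hAQ t ha)]
    exact h2 ⟨a, hAQ t ha⟩ (ht a ha)
  · intro t t' i
    obtain ⟨n, hn⟩ := M.gi t t' i
    refine ⟨n, ?_⟩
    have h1 : M.x t' i / M.x t i ∈ Q := by
      rw [div_eq_mul_inv]
      exact Q.mul_mem (hxQ t' i) (hxQ' t i)
    rw [hHdiv, ← pq_pow π (hAQ _ (M.rt t t')),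
      ← pq_div π (hxQ t' i) (M.x0 t i) (hxQ t i) (hxQ' t i),
      ← pq_mul π (Q.pow_mem (hAQ _ (M.rt t t')) n) h1]
    exact pq_mem π (hAQ t) hn
  · intro t κ _ _ φ' i hi hφ'
    have hφ : (φ'.comp (qm π (M.A t) (hAQ t))) ⟨M.x t i, M.xA t i⟩ = 0 := by
      change φ' (qm π (M.A t) (hAQ t) ⟨M.x t i, M.xA t i⟩) = 0
      rw [qm_apply π (hAQ t) (M.xA t i)]
      exact hφ'
    obtain ⟨D0, hD1, hD2⟩ := M.snc t κ (φ'.comp (qm π (M.A t) (hAQ t))) i (M.xA t i) hφ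
    obtain ⟨D, hDy, -, hDx⟩ := (hT t).correct _ (hφy t κ φ') D0
    obtain ⟨E, hE⟩ := desc_fam π (hAQ t) (hyπ t) (hker t) φ' D hDy
    refine ⟨E, (hE _ (M.xA t i)).trans ((hDx i hφ).trans hD1), ?_⟩
    intro j hj hji hφj
    have hφj' : (φ'.comp (qm π (M.A t) (hAQ t))) ⟨M.x t j, M.xA t j⟩ = 0 := by
      change φ' (qm π (M.A t) (hAQ t) ⟨M.x t j, M.xA t j⟩) = 0
      rw [qm_apply π (hAQ t) (M.xA t j)]
      exact hφj
    exact (hE _ (M.xA t j)).trans ((hDx j hφj').trans (hD2 j (M.xA t j) hji hφj'))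

end model

end Pool.Agent.W418.Lin
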